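import Pool.Agent.Work.MP_64ea0f_cs.InterfaceG3

set_option autoImplicit false

namespace Pool.CS

namespace IVA

variable (D : Rd)

theorem rho_inv (w : D.W) (v : D.V) : D.ρ w (D.ρ w⁻¹ v) = v := by
  rw [← Module.End.mul_apply, ← map_mul, mul_inv_cancel, map_one, Module.End.one_apply]

theorem inv_rho (w : D.W) (v : D.V) : D.ρ w⁻¹ (D.ρ w v) = v := by
  rw [← Module.End.mul_apply, ← map_mul, inv_mul_cancel, map_one, Module.End.one_apply]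

theorem rt_rho {φ : D.V} (w : D.W) (h : φ ∈ D.Rt) : D.ρ w φ ∈ D.Rt := by
  obtain ⟨v, s, rfl⟩ := h
  exact ⟨w * v, s, by rw [map_mul, Module.End.mul_apply]⟩

theorem ps_or {φ : D.V} (h : φ ∈ D.Rt) (h' : -φ ∈ D.Rt) : φ ∈ D.Ps ∨ -φ ∈ D.Ps := by
  obtain ⟨v, s, rfl⟩ := h
  rcases D.sign v s with h1 | h1
  · exact Or.inl ⟨⟨v, s, rfl⟩, h1⟩
  · refine Or.inr ⟨h', fun t => ?_⟩
    have h2 := h1 t
    have h3 : (-(D.ρ v (D.e s))) t = -((D.ρ v (Pi.single s 1 : D.S → ℝ)) t) := rfl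
    rw [h3]
    linarith

theorem in_neg {K : Set D.S} {φ : D.V} (h : D.In K φ) : D.In K (-φ) := by
  intro s hs
  have h1 := h s hs
  rw [Pi.neg_apply, h1, neg_zero]

theorem in_rho {K : Set D.S} {w : D.W} (hw : w ∈ D.NJ K) {φ : D.V} (h : φ ∈ D.Rt)
    (h' : -φ ∈ D.Rt) (hi : D.In K φ) : D.In K (D.ρ w⁻¹ φ) := by
  rcases ps_or D h h' with h1 | h1
  · have h2 := (hw (D.ρ w⁻¹ φ)).2
    rw [rho_inv] at h2
    exact (h2 ⟨h1, hi⟩).2
  · have h2 := (hw (D.ρ w⁻¹ (-φ))).2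
    rw [rho_inv] at h2
    have h3 := in_neg D (h2 ⟨h1, in_neg D hi⟩).2
    rwa [map_neg, neg_neg] at h3

/-- transport of the directions -/
theorem fd_iff (w : D.W) (δ φ : D.V) : D.ρ w φ ∈ D.Fd (D.ρ w δ) ↔ φ ∈ D.Fd δ := by
  have key : ∀ (u : D.W) (δ φ : D.V), φ ∈ D.Fd δ → D.ρ u φ ∈ D.Fd (D.ρ u δ) := by
    rintro u δ φ ⟨h1, t, ht, h2⟩
    refine ⟨rt_rho D u h1, t, ht, ?_⟩
    have h3 := rt_rho D u h2
    rwa [map_add, map_smul] at h3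
  refine ⟨fun h => ?_, key w δ φ⟩
  have h1 := key w⁻¹ _ _ h
  rwa [inv_rho, inv_rho] at h1

theorem fd_inv (w : D.W) (δ φ : D.V) (h : φ ∈ D.Fd (D.ρ w δ)) : D.ρ w⁻¹ φ ∈ D.Fd δ := by
  rw [← fd_iff D w, rho_inv]
  exact h

end IVA

open Classical in
theorem iva_thm : Stmt_THR → Stmt_IVA := by
  intro hT D K δ hδ
  refine ⟨fun N => ?_, fun N ν h => ⟨?_, ⟨h.dir, h.odd, h.zro⟩⟩, fun N ν ν' h h' => ?_,
    fun N N' ν hN h => ?_, fun N ν h w hw => ?_⟩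
  · refine ⟨fun _ _ _ _ => rfl, fun _ _ => by simp, fun _ _ => dvd_zero _, fun _ _ _ => rfl, ?_⟩
    intro A _ χ _ _
    simp
  · refine ⟨fun φ hφ t ht => by rw [h.dir φ hφ t ht], fun φ hφ => by rw [h.odd φ hφ],
      fun φ hφ => (dvd_neg).2 (h.dvd φ hφ), fun φ hφ hi => by rw [h.zro φ hφ hi, neg_zero], ?_⟩
    intro A hA χ h1 h2
    have h3 := h.ort A hA χ h1 h2
    rw [← neg_eq_zero, ← Finset.sum_neg_distrib] at h3
    rw [← h3]
    refine Finset.sum_congr rfl fun α _ => ?_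
    push_cast
    ring
  · refine ⟨fun φ hφ t ht => by rw [h.dir φ hφ t ht, h'.dir φ hφ t ht],
      fun φ hφ => by rw [h.odd φ hφ, h'.odd φ hφ]; ring,
      fun φ hφ => dvd_add (h.dvd φ hφ) (h'.dvd φ hφ),
      fun φ hφ hi => by rw [h.zro φ hφ hi, h'.zro φ hφ hi, add_zero], ?_⟩
    intro A hA χ h1 h2
    have h3 := h.ort A hA χ h1 h2
    have h4 := h'.ort A hA χ h1 h2
    have h5 : (0 : ℝ) = ∑ α ∈ A, (ν α : ℝ) * χ α / D.cst δ α +
        ∑ α ∈ A, (ν' α : ℝ) * χ α / D.cst δ α := by rw [h3, h4, add_zero]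
    rw [h5, ← Finset.sum_add_distrib]
    refine Finset.sum_congr rfl fun α _ => ?_
    push_cast
    ring
  · exact ⟨h.dir, h.odd, fun φ hφ => dvd_trans (Int.natCast_dvd_natCast.2 hN) (h.dvd φ hφ),
      h.zro, h.ort⟩
  · have hδ' : D.Af (D.ρ w δ) := by
      obtain ⟨g, u, hu, rfl⟩ := hδ
      exact ⟨w * g, u, hu, by rw [map_mul, Module.End.mul_apply]⟩
    have hneg : ∀ φ ∈ D.Fd (D.ρ w δ), -φ ∈ D.Fd (D.ρ w δ) := fun φ hφ =>
      (hT D _ hδ' φ hφ).2.2.2.1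
    refine ⟨fun φ hφ t ht => ?_, fun φ hφ => ?_, fun φ hφ => h.dvd _ (IVA.fd_inv D w δ φ hφ),
      fun φ hφ hi => ?_, ?_⟩
    · have h1 := IVA.fd_inv D w δ φ hφ
      have h2 := IVA.fd_inv D w δ _ ht
      have h3 : D.ρ w⁻¹ (φ + t • D.ρ w δ) = D.ρ w⁻¹ φ + t • δ := by
        rw [map_add, map_smul, IVA.inv_rho]
      rw [h3] at h2
      show ν (D.ρ w⁻¹ (φ + t • D.ρ w δ)) = ν (D.ρ w⁻¹ φ)
      rw [h3]
      exact h.dir _ h1 t h2
    · show ν (D.ρ w⁻¹ (-φ)) = -ν (D.ρ w⁻¹ φ)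
      rw [map_neg]
      exact h.odd _ (IVA.fd_inv D w δ φ hφ)
    · exact h.zro _ (IVA.fd_inv D w δ φ hφ) (IVA.in_rho D hw hφ.1 (hneg φ hφ).1 hi)
    · intro A hA χ h1 h2
      have hinj : Function.Injective (D.ρ w⁻¹) := fun a b hab => by
        rw [← IVA.rho_inv D w a, hab, IVA.rho_inv]
      have h3 := h.ort (A.image (D.ρ w⁻¹)) ?_ (χ ∘ₗ D.ρ w) ?_ ?_
      · rw [Finset.sum_image (fun a _ b _ hab => hinj hab)] at h3
        rw [← h3]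
        refine Finset.sum_congr rfl fun α hα => ?_
        have h4 := IVA.fd_inv D w δ α (hA.1 α hα)
        have h5 := ((hT D δ hδ _ h4).2.2.2.2.2.2.2.2.2 w).2.2
        rw [IVA.rho_inv] at h5
        rw [LinearMap.comp_apply, IVA.rho_inv, h5]
      · refine ⟨fun α hα => ?_, fun φ hφ => ?_⟩
        · obtain ⟨β, hβ, rfl⟩ := Finset.mem_image.1 hα
          exact IVA.fd_inv D w δ β (hA.1 β hβ)
        · obtain ⟨α, ⟨hα, t, ht⟩, hu⟩ := hA.2 (D.ρ w φ) ((IVA.fd_iff D w δ φ).2 hφ)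
          refine ⟨D.ρ w⁻¹ α, ⟨Finset.mem_image_of_mem _ hα, t, ?_⟩, ?_⟩
          · have h4 := congrArg (D.ρ w⁻¹) ht
            rwa [IVA.inv_rho, map_add, map_smul, IVA.inv_rho] at h4
          · rintro β' ⟨hβ', t', ht'⟩
            obtain ⟨β, hβ, rfl⟩ := Finset.mem_image.1 hβ'
            have h5 : D.ρ w φ = β + t' • D.ρ w δ := by
              rw [ht', map_add, map_smul, IVA.rho_inv]
            rw [hu β ⟨hβ, t', h5⟩]
      · rw [LinearMap.comp_apply, h1]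
      · intro φ hφ hi
        rw [LinearMap.comp_apply]
        refine h2 _ ((IVA.fd_iff D w δ φ).2 hφ) ?_
        have h4 := hneg _ ((IVA.fd_iff D w δ φ).2 hφ)
        rw [← map_neg, IVA.fd_iff] at h4
        have hP : φ ∈ D.Ps ∨ -φ ∈ D.Ps := IVA.ps_or D hφ.1 h4.1
        rcases hP with h6 | h6
        · exact ((hw φ).1 ⟨h6, hi⟩).2
        · have h7 := IVA.in_neg D ((hw (-φ)).1 ⟨h6, IVA.in_neg D hi⟩).2
          rwa [map_neg, neg_neg] at h7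

end Pool.CS
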